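import Pool.Agent.LPW.StmtsS

/-!
# Squad LPW, row TRN: truncation of the value of a power series
-/

set_option autoImplicit false

namespace Pool.Agent.LPW.H85

open Pool.Agent.LPW

/-- one variable -/
theorem trunc_val (p : ℕ) [Fact p.Prime] (φ : PowerSeries ℤ_[p] →ₐ[ℤ_[p]] ℤ_[p]) (x : ℤ_[p])
    (hφ : φ PowerSeries.X = (p : ℤ_[p]) * x) (g : PowerSeries ℤ_[p]) (M : ℕ) :
    (p : ℤ_[p]) ^ M ∣ φ g - ∑ i ∈ Finset.range M, PowerSeries.coeff i g * ((p : ℤ_[p]) * x) ^ i := by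
  have h1 : (PowerSeries.X : PowerSeries ℤ_[p]) ^ M ∣
      g - ∑ i ∈ Finset.range M, algebraMap ℤ_[p] (PowerSeries ℤ_[p]) (PowerSeries.coeff i g) *
        PowerSeries.X ^ i := by
    rw [PowerSeries.X_pow_dvd_iff]
    intro m hm
    rw [map_sub, map_sum, sub_eq_zero]
    rw [Finset.sum_eq_single m]
    · rw [PowerSeries.algebraMap_apply, PowerSeries.coeff_C_mul_X_pow, if_pos rfl]
      rfl
    · intro i _ hi
      rw [PowerSeries.algebraMap_apply, PowerSeries.coeff_C_mul_X_pow, if_neg (Ne.symm hi)]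
    · intro h
      exact absurd (Finset.mem_range.mpr hm) h
  obtain ⟨g', hg'⟩ := h1
  have h2 := congrArg φ hg'
  rw [map_sub, map_sum, map_mul, map_pow, hφ, mul_pow] at h2
  have h3 : ∀ i ∈ Finset.range M, φ (algebraMap ℤ_[p] (PowerSeries ℤ_[p]) (PowerSeries.coeff i g) *
      PowerSeries.X ^ i) = PowerSeries.coeff i g * ((p : ℤ_[p]) * x) ^ i := by
    intro i _
    rw [map_mul, map_pow, hφ, AlgHom.commutes]
    rfl
  rw [Finset.sum_congr rfl h3] at h2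
  rw [h2]
  exact ⟨x ^ M * φ g', by ring⟩

theorem trn : TrnStmt := by
  rintro p _ H x₀ x₁ ⟨φ₀, φ₁, h0, h1, h⟩ M
  have h2 := trunc_val p φ₁ x₁ h1 (PowerSeries.map (φ₀ : PowerSeries ℤ_[p] →+* ℤ_[p]) H) M
  rw [h, zero_sub, dvd_neg] at h2
  have h3 : (p : ℤ_[p]) ^ M ∣ ∑ j ∈ Finset.range M, (PowerSeries.coeff j
      (PowerSeries.map (φ₀ : PowerSeries ℤ_[p] →+* ℤ_[p]) H) -
        ∑ i ∈ Finset.range M, hc H i j * ((p : ℤ_[p]) * x₀) ^ i) * ((p : ℤ_[p]) * x₁) ^ j := by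
    refine Finset.dvd_sum fun j _ => Dvd.dvd.mul_right ?_ _
    rw [PowerSeries.coeff_map]
    exact trunc_val p φ₀ x₀ h0 (PowerSeries.coeff j H) M
  have h4 := dvd_sub h2 h3
  rw [← Finset.sum_sub_distrib] at h4
  have h5 : ∑ j ∈ Finset.range M, ∑ i ∈ Finset.range M, hc H i j * ((p : ℤ_[p]) * x₀) ^ i *
      ((p : ℤ_[p]) * x₁) ^ j = ∑ j ∈ Finset.range M, (PowerSeries.coeff j
      (PowerSeries.map (φ₀ : PowerSeries ℤ_[p] →+* ℤ_[p]) H) * ((p : ℤ_[p]) * x₁) ^ j -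
      (PowerSeries.coeff j
      (PowerSeries.map (φ₀ : PowerSeries ℤ_[p] →+* ℤ_[p]) H) -
        ∑ i ∈ Finset.range M, hc H i j * ((p : ℤ_[p]) * x₀) ^ i) * ((p : ℤ_[p]) * x₁) ^ j) := by
    refine Finset.sum_congr rfl fun j _ => ?_
    rw [← Finset.sum_mul]
    ring
  rw [h5]
  exact h4

end Pool.Agent.LPW.H85
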